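import Pool.Agent.H27.Final

set_option autoImplicit false

/-!
# The quartic equation `x^4 + x^3 y + x y^3 - z^4 = 0` has no integer solution with `x y z ≠ 0`

Outline of the proof (details in the files `Pool/Agent/H27/*.lean`).
Let `θ^3 + θ + 1 = 0`, and let `O = ℤ[θ]` (a Euclidean domain with unit group `± θ^k`).
A primitive solution gives `y - θ a^4 = ε β^4` with `ε = (-θ)^k`, `0 ≤ k ≤ 3`.
* `k` even: the conic `v^2 + 2uw - w^2 = 0` is parametrised twice and a smaller solution appears.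
* `k = 3`: impossible modulo `3`.
* `k = 1`: `y^2 + θ y A^2 + η A^4 = η τ^4` with `η = θ^2 + 1`, `A = a^2`; a 2-isogeny descent over
  `ℚ(θ)` on `V^2 = U^3 + D U`, `D = η (3 θ^2 + 4)`, combined with a 2-adic argument (the residue
  modulo `2` of the leading term of a point close to the origin) forces `y = 0`.
-/

namespace Pool.Agent.Results.MP_9eb1ff_nt.NoNonzeroSolution

/-- The equation `x^4 + x^3 y + x y^3 - z^4 = 0` has no integer solution with
`x ≠ 0`, `y ≠ 0` and `z ≠ 0`. -/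
theorem result : ¬ ∃ x y z : ℤ, x ≠ 0 ∧ y ≠ 0 ∧ z ≠ 0 ∧
    x ^ 4 + x ^ 3 * y + x * y ^ 3 - z ^ 4 = 0 := by
  rintro ⟨x, y, z, hx, hy, hz, h⟩
  have h1 : x ^ 4 + x ^ 3 * y + x * y ^ 3 = z ^ 4 := by linarith
  have h2 := Pool.Agent.H27.main z.natAbs x y z rfl h1
  exact mul_ne_zero (mul_ne_zero hx hy) hz h2

end Pool.Agent.Results.MP_9eb1ff_nt.NoNonzeroSolution
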